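import Mathlib

/-!
MP_ee9c6f_al / E4 (helper63). Affine actions with finite linear image and characters.
-/

set_option autoImplicit false
set_option linter.unusedSectionVars false

namespace Pool.Agent.H.MP_ee9c6f_al.E4.Rep

section

variable {G : Type*} [Group G]

/-- elements acting trivially by conjugation on a finite set -/
theorem exists_comm {Γ : Type*} [Group Γ] (L : G →* Γ) {Y : Set Γ} (hf : Y.Finite)
    (hL : ∀ g, ∀ y ∈ Y, L g * y * (L g)⁻¹ ∈ Y) :
    ∃ N : Subgroup G, N.FiniteIndex ∧ ∀ g ∈ N, ∀ y ∈ Y, L g * y = y * L g := by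
  classical
  have hL' : ∀ g, ∀ y, L g * y * (L g)⁻¹ ∈ Y ↔ y ∈ Y := by
    intro g y
    refine ⟨fun h => ?_, hL g y⟩
    have := hL g⁻¹ _ h
    simpa [mul_assoc] using this
  have : Finite ↥Y := hf
  let φ : G →* Equiv.Perm {y // y ∈ Y} :=
    { toFun := fun g => Equiv.Perm.subtypePerm (MulAut.conj (L g)).toEquiv (fun y => by
        exact hL' g y)
      map_one' := by
        ext y
        simp
      map_mul' := by
        intro a b
        ext y
        change L (a * b) * y * (L (a * b))⁻¹ = L a * (L b * y * (L b)⁻¹) * (L a)⁻¹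
        simp [mul_assoc] }
  refine ⟨φ.ker, inferInstance, fun g hg y hy => ?_⟩
  have h : φ g ⟨y, hy⟩ = ⟨y, hy⟩ := by
    rw [MonoidHom.mem_ker] at hg
    rw [hg]; rfl
  have h2 : L g * y * (L g)⁻¹ = y := congrArg Subtype.val h
  rw [mul_inv_eq_iff_eq_mul] at h2
  exact h2

/-- finite index of a kernel -/
theorem ker_finiteIndex {Γ : Type*} [Group Γ] (L : G →* Γ) {N : Subgroup G} (hN : N.FiniteIndex)
    {Z : Set Γ} (hZ : Z.Finite) (h : ∀ g ∈ N, L g ∈ Z) : L.ker.FiniteIndex := by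
  let f : N →* Γ := L.comp N.subtype
  have h1 : Finite f.range := by
    refine (hZ.subset ?_ : (f.range : Set Γ).Finite)
    rintro _ ⟨g, rfl⟩
    exact h g.1 g.2
  have h2 : f.ker.FiniteIndex := inferInstance
  have h3 : (f.ker.map N.subtype).index ≠ 0 := by
    rw [Subgroup.index_map_subtype]
    exact mul_ne_zero h2.index_ne_zero hN.index_ne_zero
  have h4 : f.ker.map N.subtype ≤ L.ker := by
    rintro _ ⟨x, hx, rfl⟩
    exact hx
  exact ⟨fun h0 => h3 (Nat.eq_zero_of_zero_dvd (h0 ▸ Subgroup.index_dvd_of_le h4))⟩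

end

section

variable {G : Type*} [Group G] {K V : Type*} [Field K] [AddCommGroup V] [Module K V] [Module ℚ V]

/-- the character of an affine action -/
theorem exists_char (hG : Group.FG G) (Φ : G →* (V ≃ᵃ[K] V))
    (hfi : (AffineEquiv.linearHom.comp Φ).ker.FiniteIndex) {z : G}
    (hz : AffineEquiv.linearHom (Φ z) = 1) (hz0 : Φ z 0 ≠ 0) :
    ∃ (M : Subgroup G) (χ : G → ℤ), M.Normal ∧ M.FiniteIndex ∧ z ∈ M ∧
      (∀ x ∈ M, ∀ y ∈ M, χ (x * y) = χ x + χ y) ∧ ∀ g : G, χ (g * z * g⁻¹) ≠ 0 := by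
  classical
  set L := AffineEquiv.linearHom.comp Φ with hLdef
  have hL : ∀ (g : G) (v : V), Φ g v = L g v + Φ g 0 := by
    intro g v
    have h1 : Φ g v = (Φ g).linear v + Φ g 0 := by simpa using (Φ g).map_vadd 0 v
    exact h1
  set M := L.ker with hM
  have hMem : ∀ x ∈ M, ∀ v : V, Φ x v = v + Φ x 0 := by
    intro x hx v
    rw [hL x v, (MonoidHom.mem_ker.1 hx : L x = 1)]
    rfl
  have htadd : ∀ x ∈ M, ∀ y ∈ M, Φ (x * y) 0 = Φ x 0 + Φ y 0 := by
    intro x hx y _
    rw [map_mul]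
    change Φ x (Φ y 0) = _
    rw [hMem x hx, add_comm]
  have hconj : ∀ g : G, Φ (g * z * g⁻¹) 0 = L g (Φ z 0) := by
    intro g
    have hzM : z ∈ M := MonoidHom.mem_ker.2 hz
    rw [map_mul, map_mul]
    change Φ g (Φ z (Φ g⁻¹ 0)) = _
    rw [hMem z hzM, hL g, map_add]
    have h1 : L g (Φ g⁻¹ 0) + Φ g 0 = 0 := by
      rw [← hL g, map_inv]
      exact (Φ g).apply_symm_apply 0
    calc L g (Φ g⁻¹ 0) + L g (Φ z 0) + Φ g 0 = (L g (Φ g⁻¹ 0) + Φ g 0) + L g (Φ z 0) := by abel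
      _ = L g (Φ z 0) := by rw [h1, zero_add]
  have hfin : Finite (G ⧸ M) := by
    have := hfi
    infer_instance
  obtain ⟨f, hf⟩ := Module.exists_dual_forall_apply_ne_zero (K := ℚ)
    (fun q : G ⧸ M => L q.out (Φ z 0)) (fun q => by
      intro h
      exact hz0 ((L q.out).map_eq_zero_iff.1 h))
  have hf' : ∀ g : G, f (L g (Φ z 0)) ≠ 0 := by
    intro g
    have h1 : L g = L (QuotientGroup.mk g : G ⧸ M).out := by
      have h2 : (QuotientGroup.mk g : G ⧸ M) = QuotientGroup.mk (QuotientGroup.mk g : G ⧸ M).out :=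
        (QuotientGroup.out_eq' _).symm
      rw [QuotientGroup.eq, hM, MonoidHom.mem_ker, map_mul, map_inv] at h2
      exact (inv_mul_eq_one.1 h2)
    rw [h1]
    exact hf _
  -- a common denominator
  have hMfg : Group.FG M := by
    have := hfi
    have := hG
    exact Subgroup.fg_of_index_ne_zero M
  obtain ⟨S, hS⟩ := hMfg.out
  set D : ℕ := ∏ s ∈ S, (f (Φ s.1 0)).den with hD
  have hD0 : (D : ℚ) ≠ 0 := by
    rw [hD]
    exact_mod_cast Finset.prod_ne_zero_iff.2 fun (s : M) _ => (f (Φ s.1 0)).den_ne_zero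
  have hint : ∀ x : M, ∃ k : ℤ, (k : ℚ) = D * f (Φ x.1 0) := by
    intro x
    have hx : x ∈ Subgroup.closure (S : Set M) := hS ▸ Subgroup.mem_top x
    induction hx using Subgroup.closure_induction with
    | mem s hs =>
      obtain ⟨c, hc⟩ := Finset.dvd_prod_of_mem (fun s : M => (f (Φ s.1 0)).den) hs
      refine ⟨c * (f (Φ s.1 0)).num, ?_⟩
      have h1 : (D : ℚ) = ((f (Φ s.1 0)).den : ℚ) * c := by
        rw [hD]; exact_mod_cast hc
      rw [h1]
      push_cast
      have h2 := Rat.mul_den_eq_num (f (Φ s.1 0))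
      linear_combination -(c : ℚ) * h2
    | one =>
      refine ⟨0, ?_⟩
      have : Φ (1 : M).1 0 = 0 := by simp
      rw [this]; simp
    | mul a b _ _ ha hb =>
      obtain ⟨k, hk⟩ := ha
      obtain ⟨l, hl⟩ := hb
      refine ⟨k + l, ?_⟩
      rw [show (a * b : M).1 = a.1 * b.1 from rfl, htadd _ a.2 _ b.2, map_add]
      push_cast
      rw [hk, hl]; ring
    | inv a _ ha =>
      obtain ⟨k, hk⟩ := ha
      refine ⟨-k, ?_⟩
      have h1 := htadd _ a.2 _ (M.inv_mem a.2)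
      rw [mul_inv_cancel] at h1
      have h2 : Φ (1 : G) 0 = 0 := by simp
      rw [h2] at h1
      have h3 : Φ (a⁻¹ : M).1 0 = - Φ a.1 0 := by
        rw [show (a⁻¹ : M).1 = a.1⁻¹ from rfl]
        exact (neg_eq_of_add_eq_zero_right h1.symm).symm
      rw [h3, map_neg]
      push_cast
      rw [hk]; ring
  choose k hk using hint
  refine ⟨M, fun g => if h : g ∈ M then k ⟨g, h⟩ else 0, inferInstance, hfi,
    MonoidHom.mem_ker.2 hz, ?_, ?_⟩
  · intro x hx y hy
    have hxy := M.mul_mem hx hy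
    beta_reduce
    rw [dif_pos hx, dif_pos hy, dif_pos hxy]
    have : ((k ⟨x * y, hxy⟩ : ℤ) : ℚ) = ((k ⟨x, hx⟩ + k ⟨y, hy⟩ : ℤ) : ℚ) := by
      push_cast
      rw [hk, hk, hk, htadd x hx y hy, map_add]
      ring
    exact_mod_cast this
  · intro g
    have hzM : z ∈ M := MonoidHom.mem_ker.2 hz
    have hgM : g * z * g⁻¹ ∈ M := (inferInstance : M.Normal).conj_mem z hzM g
    beta_reduce
    rw [dif_pos hgM]
    intro h0
    have h1 := hk ⟨g * z * g⁻¹, hgM⟩
    rw [h0] at h1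
    simp only [Int.cast_zero] at h1
    rw [hconj g] at h1
    rcases mul_eq_zero.1 h1.symm with h | h
    · exact hD0 h
    · exact hf' g h

end

end Pool.Agent.H.MP_ee9c6f_al.E4.Rep
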