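import Pool.Agent.H.MP_ee9c6f_al.E4Rep.Heis
import Pool.Agent.H.MP_ee9c6f_al.E4Rep.Abs

/-!
MP_ee9c6f_al / E4 (helper63). The affine maps of the generators, words in them, Schur's lemma.
-/

set_option autoImplicit false
set_option linter.unusedSectionVars false

namespace Pool.Agent.H.MP_ee9c6f_al.E4.Rep

/-- the elements of the Heisenberg group of the nine generators -/
def hv : Fin 9 → Hs :=
  ![⟨1, 0, ![0, 1, 0, 0]⟩, ⟨0, 0, ![1, 0, 0, 0]⟩, ⟨0, ![1, 0, 0, 0], 0⟩, ⟨0, 0, ![-1, 1, 0, 0]⟩,
    ⟨0, ![0, 1, 0, 0], 0⟩, ⟨0, 0, ![0, -1, 1, 0]⟩, ⟨0, ![0, 0, 1, 0], 0⟩, ⟨0, 0, ![0, 0, -1, 1]⟩,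
    ⟨0, ![0, 0, 0, 1], 0⟩]

theorem hv_iso (i : Fin 9) : dt (hv i).b (hv i).a = 0 := by
  revert i
  decide

/-- the function `(0, 1, -1)` -/
def chi3 (x : ZMod 3) : ℤ := if x = 0 then 0 else if x = 1 then 1 else -1

/-- generators of the Heisenberg group -/
def xx (k : Fin 4) : Hs := ⟨0, Pi.single k 1, 0⟩
/-- generators of the Heisenberg group -/
def zz (k : Fin 4) : Hs := ⟨0, 0, Pi.single k 1⟩

section

variable {K : Type*} [Field K] [CharZero K] {w : K}

theorem psi_inj (hw : w ^ 2 + w + 1 = 0) {x y : ZMod 3} (h : psi w x = psi w y) : x = y := by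
  have key : ∀ z : ZMod 3, psi w z = 1 → z = 0 := by
    intro z hz
    have hs : ∀ s : ZMod 3, s = 0 ∨ s = 1 ∨ s = 2 := by decide
    have p1 : psi w (1 : ZMod 3) = w := by simp [psi, ZMod.val_one]
    have h3 : (3 : K) ≠ 0 := by norm_num
    rcases hs z with h | h | h
    · exact h
    · rw [h, p1] at hz
      exfalso
      apply h3
      rw [hz] at hw
      linear_combination hw
    · rw [h, show (2 : ZMod 3) = 1 + 1 by decide, psi_add hw, p1] at hz
      exfalso
      apply h3
      have e1 : w = -2 := by linear_combination hw - hz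
      rw [e1] at hw
      linear_combination hw
  have h1 : psi w (x - y) = 1 := by
    have h2 : psi w (x - y) * psi w y = psi w y := by
      rw [← psi_add hw, sub_add_cancel, h]
    exact (mul_eq_right₀ (psi_ne hw y)).1 h2
  exact sub_eq_zero.1 (key _ h1)

theorem op_zz (k : Fin 4) (v : I4 → K) (s : I4) : op w (zz k) v s = psi w (s k) * v s := by
  have : dt (Pi.single k 1) s = s k := by simp [dt, Pi.single_apply]
  simp [op_apply, zz, this]

theorem op_xx (k : Fin 4) (v : I4 → K) (s : I4) : op w (xx k) v s = v (s - Pi.single k 1) := by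
  simp [op_apply, xx, zero_dt, psi_zero]

/-- Schur's lemma -/
theorem scalar_of_comm (hw : w ^ 2 + w + 1 = 0) (L : Module.End K (I4 → K))
    (hx : ∀ k v, L (op w (xx k) v) = op w (xx k) (L v))
    (hz : ∀ k v, L (op w (zz k) v) = op w (zz k) (L v)) :
    ∀ v, L v = (L (Pi.single 0 1) 0) • v := by
  classical
  let e : I4 → (I4 → K) := fun t => Pi.single t 1
  have h1 : ∀ t s : I4, s ≠ t → L (e t) s = 0 := by
    intro t s hst
    obtain ⟨k, hk⟩ := Function.ne_iff.1 hst
    have e1 : op w (zz k) (e t) = psi w (t k) • e t := by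
      funext s
      rw [op_zz]
      by_cases h : s = t
      · rw [h]; rfl
      · simp [e, Pi.single_eq_of_ne h]
    have e2 := congrFun (hz k (e t)) s
    rw [e1, map_smul, op_zz, Pi.smul_apply, smul_eq_mul] at e2
    by_contra h0
    have e3 := mul_right_cancel₀ h0 e2
    exact hk (psi_inj hw e3).symm
  have h2 : ∀ t k, L (e (t + Pi.single k 1)) (t + Pi.single k 1) = L (e t) t := by
    intro t k
    have e1 : op w (xx k) (e t) = e (t + Pi.single k 1) := by
      funext s
      rw [op_xx]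
      by_cases h : s = t + Pi.single k 1
      · rw [h]; simp [e]
      · have : s - Pi.single k 1 ≠ t := fun h' => h (by rw [← h', sub_add_cancel])
        simp [e, Pi.single_eq_of_ne h, Pi.single_eq_of_ne this]
    rw [← e1, hx, op_xx, add_sub_cancel_right]
  let S : AddSubgroup I4 :=
    { carrier := {a | ∀ t, L (e (t + a)) (t + a) = L (e t) t}
      zero_mem' := by intro t; simp
      add_mem' := by
        intro a b ha hb t
        rw [← add_assoc, hb, ha]
      neg_mem' := by
        intro a ha t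
        have := ha (t + -a)
        rw [neg_add_cancel_right] at this
        exact this.symm }
  have h3 : ∀ a : I4, a ∈ S := by
    intro a
    have e0 : ∀ k, (a k).val • (Pi.single k 1 : I4) = Pi.single k (a k) := by
      intro k
      rw [← Pi.single_smul]
      congr 1
      simp
    have e1 : a = ∑ k, (a k).val • (Pi.single k 1 : I4) := by
      simp only [e0]
      exact (Finset.univ_sum_single a).symm
    rw [e1]
    exact S.sum_mem fun k _ => S.nsmul_mem (fun t => h2 t k) _
  have h4 : ∀ t, L (e t) t = L (e 0) 0 := by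
    intro t
    have := h3 t 0
    rwa [zero_add] at this
  have h5 : L = (L (e 0) 0) • (1 : Module.End K (I4 → K)) := by
    refine (Pi.basisFun K I4).ext fun t => ?_
    rw [Pi.basisFun_apply]
    funext s
    by_cases h : s = t
    · rw [h]
      have := h4 t
      simp only [e] at this
      rw [this]
      simp [e]
    · have := h1 t s h
      simp only [e] at this
      rw [this]
      simp [Pi.single_eq_of_ne h]
  intro v
  conv_lhs => rw [h5]
  rfl

/-- the linear automorphism -/
def Te (hw : w ^ 2 + w + 1 = 0) (h : Hs) : (I4 → K) ≃ₗ[K] (I4 → K) :=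
  LinearEquiv.ofLinearMap (T w h) (T' w h) (T_T' hw h) (T'_T hw h)

theorem Te_apply (hw : w ^ 2 + w + 1 = 0) (h : Hs) (v : I4 → K) : Te hw h v = T w h v := rfl

theorem Te_inv (hw : w ^ 2 + w + 1 = 0) (h : Hs) : (Te hw h)⁻¹ = Te hw h * Te hw h := by
  rw [inv_eq_iff_mul_eq_one]
  apply LinearEquiv.ext
  intro v
  change T w h (T w h (T w h v)) = v
  have : T w h * (T w h * T w h) = 1 := by rw [T_T hw, T_T' hw]
  exact LinearMap.congr_fun this v

/-- the linear automorphism of an element of the Heisenberg group -/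
def ope (hw : w ^ 2 + w + 1 = 0) (h : Hs) : (I4 → K) ≃ₗ[K] (I4 → K) :=
  LinearEquiv.ofLinearMap (op w h) (op w h * op w h)
    (by
      have := op_cube hw h
      rw [mul_assoc] at this
      exact this)
    (op_cube hw h)

theorem ope_apply (hw : w ^ 2 + w + 1 = 0) (h : Hs) (v : I4 → K) : ope hw h v = op w h v := rfl

theorem Te_ope (hw : w ^ 2 + w + 1 = 0) {h : Hs} (hh : dt h.b h.a = 0) (g : Hs) :
    Te hw h * ope hw g * (Te hw h)⁻¹ = ope hw (sig h g) := by
  rw [mul_inv_eq_iff_eq_mul]
  apply LinearEquiv.ext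
  intro v
  exact LinearMap.congr_fun (T_op hw hh g) v

/-- translations -/
def tr (K : Type*) [Field K] (i : Fin 9) : I4 → K := fun t =>
  if i = 4 then ((3 * (chi3 (t 0) * chi3 (t 3 - t 2)) : ℤ) : K) else 0

/-- the affine automorphism of a generator -/
def A (hw : w ^ 2 + w + 1 = 0) (i : Fin 9) : (I4 → K) ≃ᵃ[K] (I4 → K) where
  toFun v := Te hw (hv i) v + tr K i
  invFun v := (Te hw (hv i)).symm (v - tr K i)
  left_inv v := by simp
  right_inv v := by simp
  linear := Te hw (hv i)
  map_vadd' p v := by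
    change Te hw (hv i) (v + p) + tr K i = Te hw (hv i) v + (Te hw (hv i) p + tr K i)
    rw [map_add, add_assoc]

theorem A_apply (hw : w ^ 2 + w + 1 = 0) (i : Fin 9) (v : I4 → K) :
    A hw i v = T w (hv i) v + tr K i := rfl

theorem A_linear (hw : w ^ 2 + w + 1 = 0) (i : Fin 9) :
    AffineEquiv.linearHom (A hw i) = Te hw (hv i) := rfl

/-- the letters act on the Heisenberg group -/
def sl (i : Fin 9) (e : Bool) (g : Hs) : Hs :=
  if e then sig (hv i) g else sig (hv i) (sig (hv i) g)

/-- conjugation by the inverse of a word -/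
def rl : List (Fin 9 × Bool) → Hs → Hs
  | [], g => g
  | p :: l, g => rl l (sl p.1 (!p.2) g)

/-- the affine automorphism of a word -/
def wd (hw : w ^ 2 + w + 1 = 0) (l : List (Fin 9 × Bool)) : (I4 → K) ≃ᵃ[K] (I4 → K) :=
  (l.map fun x => cond x.2 (A hw x.1) (A hw x.1)⁻¹).prod

theorem wd_cons (hw : w ^ 2 + w + 1 = 0) (p : Fin 9 × Bool) (l : List (Fin 9 × Bool)) :
    wd hw (p :: l) = cond p.2 (A hw p.1) (A hw p.1)⁻¹ * wd hw l := by
  simp [wd]

/-- the linear part of a word -/
def lw (hw : w ^ 2 + w + 1 = 0) (l : List (Fin 9 × Bool)) : (I4 → K) ≃ₗ[K] (I4 → K) :=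
  AffineEquiv.linearHom (wd hw l)

theorem lw_cons (hw : w ^ 2 + w + 1 = 0) (p : Fin 9 × Bool) (l : List (Fin 9 × Bool)) :
    lw hw (p :: l) = cond p.2 (Te hw (hv p.1)) (Te hw (hv p.1))⁻¹ * lw hw l := by
  rw [lw, wd_cons, map_mul]
  congr 1
  rcases p with ⟨i, _ | _⟩
  · simp only [cond_false, map_inv, A_linear]
  · simp only [cond_true, A_linear]

theorem Te_conj (hw : w ^ 2 + w + 1 = 0) (i : Fin 9) (e : Bool) (g : Hs) :
    cond e (Te hw (hv i)) (Te hw (hv i))⁻¹ * ope hw g * (cond e (Te hw (hv i)) (Te hw (hv i))⁻¹)⁻¹ =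
      ope hw (sl i e g) := by
  cases e
  · simp only [cond_false, sl, Bool.false_eq_true, if_false]
    rw [← Te_ope hw (hv_iso i) (sig (hv i) g), ← Te_ope hw (hv_iso i) g]
    conv_lhs => rw [Te_inv]
    group
  · simp only [cond_true, sl, if_true]
    exact Te_ope hw (hv_iso i) g

theorem lw_conj (hw : w ^ 2 + w + 1 = 0) (l : List (Fin 9 × Bool)) (g : Hs) :
    (lw hw l)⁻¹ * ope hw g * lw hw l = ope hw (rl l g) := by
  induction l generalizing g with
  | nil =>
    have : lw hw [] = 1 := map_one _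
    rw [this, rl]
    simp
  | cons p l ih =>
    rw [rl, ← ih, lw_cons, ← Te_conj]
    rcases p with ⟨i, _ | _⟩
    · simp only [cond_false, Bool.not_false, cond_true]
      group
    · simp only [cond_true, Bool.not_true, cond_false]
      group

/-- a word which commutes with the generators of the Heisenberg group is a scalar -/
theorem lw_scalar (hw : w ^ 2 + w + 1 = 0) (l : List (Fin 9 × Bool))
    (hx : ∀ k, rl l (xx k) = xx k) (hz : ∀ k, rl l (zz k) = zz k) :
    ∃ r : K, ∀ v, lw hw l v = r • v := by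
  refine ⟨_, scalar_of_comm hw (lw hw l).toLinearMap (fun k v => ?_) (fun k v => ?_)⟩
  · have h := lw_conj hw l (xx k)
    rw [hx, mul_assoc, inv_mul_eq_iff_eq_mul] at h
    exact (LinearEquiv.congr_fun h v).symm
  · have h := lw_conj hw l (zz k)
    rw [hz, mul_assoc, inv_mul_eq_iff_eq_mul] at h
    exact (LinearEquiv.congr_fun h v).symm

theorem wd_apply (hw : w ^ 2 + w + 1 = 0) (l : List (Fin 9 × Bool)) (v : I4 → K) :
    wd hw l v = lw hw l v + wd hw l 0 := by
  have h1 : wd hw l v = (wd hw l).linear v + wd hw l 0 := by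
    simpa using (wd hw l).map_vadd 0 v
  exact h1

theorem tr_ne : tr K 4 ≠ 0 := by
  intro h
  have := congrFun h (![1, 0, 0, 1] : I4)
  have e1 : chi3 1 = 1 := by decide
  have e2 : chi3 (1 - 0) = 1 := by decide
  simp [tr, e1] at this

/-- the linear part of a word is trivial -/
theorem lw_one (hw : w ^ 2 + w + 1 = 0) (l : List (Fin 9 × Bool))
    (hx : ∀ k, rl l (xx k) = xx k) (hz : ∀ k, rl l (zz k) = zz k)
    (h1 : wd hw l (tr K 4) = tr K 4 + wd hw l 0) : lw hw l = 1 := by
  obtain ⟨r, hr⟩ := lw_scalar hw l hx hz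
  rw [wd_apply, hr, add_left_inj] at h1
  have h2 : r = 1 := by
    have h3 : (r - 1) • tr K 4 = 0 := by rw [sub_smul, h1, one_smul, sub_self]
    rcases smul_eq_zero.1 h3 with h | h
    · exact sub_eq_zero.1 h
    · exact absurd h tr_ne
  apply LinearEquiv.ext
  intro v
  rw [hr, h2, one_smul]
  rfl

/-- a word is trivial -/
theorem wd_one (hw : w ^ 2 + w + 1 = 0) (l : List (Fin 9 × Bool))
    (hx : ∀ k, rl l (xx k) = xx k) (hz : ∀ k, rl l (zz k) = zz k)
    (h0 : wd hw l 0 = 0) (h1 : wd hw l (tr K 4) = tr K 4) : wd hw l = 1 := by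
  have h2 := lw_one hw l hx hz (by rw [h0, h1, add_zero])
  apply AffineEquiv.ext
  intro v
  rw [wd_apply, h2, h0, add_zero]
  rfl

end

end Pool.Agent.H.MP_ee9c6f_al.E4.Rep
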