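import Pool.Agent.H.MP_ee9c6f_al.E4Rep.Wds

/-!
MP_ee9c6f_al / E4 (helper63). From the checks to the affine automorphisms.
-/

set_option autoImplicit false
set_option linter.unusedSectionVars false

namespace Pool.Agent.H.MP_ee9c6f_al.E4.Rep

section

variable {K : Type*} [Field K] [CharZero K] {w : K}

theorem Z0_val' : ∀ d0 d1 d2 d3 : ZMod 3, fA Z0 (idx ![d0, d1, d2, d3]) = 64 ∧
    fB Z0 (idx ![d0, d1, d2, d3]) = 64 := by
  decide +kernel

theorem Z1_val' : ∀ d0 d1 d2 d3 : ZMod 3,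
    (fA Z1 (idx ![d0, d1, d2, d3]) : ℤ) = 64 + 3 * (chi3 d0 * chi3 (d3 - d2)) ∧
      fB Z1 (idx ![d0, d1, d2, d3]) = 64 := by
  decide +kernel

theorem eta4 (t : I4) : ![t 0, t 1, t 2, t 3] = t := by
  funext k
  fin_cases k <;> rfl

theorem vec_Z0 (hw : w ^ 2 + w + 1 = 0) : vec w Z0 = 0 := by
  funext t
  have h := Z0_val' (t 0) (t 1) (t 2) (t 3)
  rw [eta4] at h
  rw [vec, vl, h.1, h.2]
  push_cast
  simp only [Pi.zero_apply]
  linear_combination (64 : K) * hw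

theorem vec_Z1 (hw : w ^ 2 + w + 1 = 0) : vec w Z1 = tr K 4 := by
  funext t
  have h := Z1_val' (t 0) (t 1) (t 2) (t 3)
  rw [eta4] at h
  have h1 : (fA Z1 (idx t) : K) = 64 + 3 * (chi3 (t 0) * chi3 (t 3 - t 2)) := by
    have := congrArg (Int.cast : ℤ → K) h.1
    push_cast at this
    exact this
  rw [vec, vl, h1, h.2, tr, if_pos rfl]
  push_cast
  linear_combination (64 : K) * hw

/-- a check of a piece of a word with one table -/
theorem piece (hw : w ^ 2 + w + 1 = 0) {l : List (Fin 9 × Bool)} {T n n' : ℕ}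
    (h : (vchk T l 0 && ends T l n n') = true) : (wd hw l)⁻¹ (vec w n) = vec w n' := by
  simp only [ends, Bool.and_eq_true] at h
  obtain ⟨h1, h2, h3⟩ := h
  have h4 := vchk_sound hw h1
  rw [Nat.eq_of_beq_eq_true h2, Nat.zero_add, Nat.eq_of_beq_eq_true h3] at h4
  exact h4

theorem wd_one_of (hw : w ^ 2 + w + 1 = 0) {l : List (Fin 9 × Bool)} (h1 : hall l = true)
    (h2 : (wd hw l)⁻¹ (vec w Z0) = vec w Z0) (h3 : (wd hw l)⁻¹ (vec w Z1) = vec w Z1) :
    wd hw l = 1 := by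
  obtain ⟨hx, hz⟩ := hall_sound h1
  rw [vec_Z0 hw] at h2
  rw [vec_Z1 hw] at h3
  have key : ∀ v, (wd hw l)⁻¹ v = v → wd hw l v = v := by
    intro v hv
    conv_lhs => rw [← hv]
    exact (wd hw l).apply_symm_apply v
  exact wd_one hw l hx hz (key _ h2) (key _ h3)

theorem good_sound (hw : w ^ 2 + w + 1 = 0) {l : List (Fin 9 × Bool)} {T0 T1 : ℕ}
    (h : good l T0 T1 = true) : wd hw l = 1 := by
  simp only [good, Bool.and_eq_true] at h
  obtain ⟨h1, h2, h3, h4, h5⟩ := h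
  exact wd_one_of hw h1 (piece hw (T := T0) (by rw [h2, h4]; rfl))
    (piece hw (T := T1) (by rw [h3, h5]; rfl))

/-- the linear part of a word is trivial, by the inverse -/
theorem lw_one_of (hw : w ^ 2 + w + 1 = 0) {l : List (Fin 9 × Bool)} (h1 : hall l = true)
    (h2 : (wd hw l)⁻¹ (tr K 4) = tr K 4 + (wd hw l)⁻¹ 0) : lw hw l = 1 := by
  obtain ⟨hx, hz⟩ := hall_sound h1
  obtain ⟨r, hr⟩ := lw_scalar hw l hx hz
  have e1 : wd hw l ((wd hw l)⁻¹ (tr K 4)) = tr K 4 := (wd hw l).apply_symm_apply _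
  have e2 : wd hw l ((wd hw l)⁻¹ 0) = 0 := (wd hw l).apply_symm_apply _
  rw [h2, wd_apply, hr, smul_add, add_assoc, ← hr ((wd hw l)⁻¹ 0), ← wd_apply, e2, add_zero] at e1
  have h4 : r = 1 := by
    have h3 : (r - 1) • tr K 4 = 0 := by rw [sub_smul, e1, one_smul, sub_self]
    rcases smul_eq_zero.1 h3 with h | h
    · exact sub_eq_zero.1 h
    · exact absurd h tr_ne
  apply LinearEquiv.ext
  intro v
  rw [hr, h4, one_smul]
  rfl

end

end Pool.Agent.H.MP_ee9c6f_al.E4.Rep
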