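import Pool.Agent.H.MP_ee9c6f_al.E4Rep.Snd

/-!
MP_ee9c6f_al / E4 (helper63). The action of words on the Heisenberg group by arithmetic of natural
numbers.
-/

set_option autoImplicit false
set_option linter.unusedSectionVars false

namespace Pool.Agent.H.MP_ee9c6f_al.E4.Rep

/-- digits -/
structure HN where
  c : ℕ
  a0 : ℕ
  a1 : ℕ
  a2 : ℕ
  a3 : ℕ
  b0 : ℕ
  b1 : ℕ
  b2 : ℕ
  b3 : ℕ

/-- the element -/
def HN.hs (g : HN) : Hs := ⟨g.c, ![g.a0, g.a1, g.a2, g.a3], ![g.b0, g.b1, g.b2, g.b3]⟩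

/-- equality -/
def HN.beq (g h : HN) : Bool :=
  Nat.beq g.c h.c && (Nat.beq g.a0 h.a0 && (Nat.beq g.a1 h.a1 && (Nat.beq g.a2 h.a2 &&
    (Nat.beq g.a3 h.a3 && (Nat.beq g.b0 h.b0 && (Nat.beq g.b1 h.b1 && (Nat.beq g.b2 h.b2 &&
      Nat.beq g.b3 h.b3)))))))

theorem HN.beq_sound {g h : HN} (e : g.beq h = true) : g = h := by
  simp only [HN.beq, Bool.and_eq_true] at e
  obtain ⟨h0, h1, h2, h3, h4, h5, h6, h7, h8⟩ := e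
  rcases g with ⟨⟩
  rcases h with ⟨⟩
  simp only [HN.mk.injEq]
  exact ⟨Nat.eq_of_beq_eq_true h0, Nat.eq_of_beq_eq_true h1, Nat.eq_of_beq_eq_true h2,
    Nat.eq_of_beq_eq_true h3, Nat.eq_of_beq_eq_true h4, Nat.eq_of_beq_eq_true h5,
    Nat.eq_of_beq_eq_true h6, Nat.eq_of_beq_eq_true h7, Nat.eq_of_beq_eq_true h8⟩

/-- the generators -/
def hn (i : ℕ) : HN :=
  match i with
  | 0 => ⟨1, 0, 0, 0, 0, 0, 1, 0, 0⟩
  | 1 => ⟨0, 0, 0, 0, 0, 1, 0, 0, 0⟩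
  | 2 => ⟨0, 1, 0, 0, 0, 0, 0, 0, 0⟩
  | 3 => ⟨0, 0, 0, 0, 0, 2, 1, 0, 0⟩
  | 4 => ⟨0, 0, 1, 0, 0, 0, 0, 0, 0⟩
  | 5 => ⟨0, 0, 0, 0, 0, 0, 2, 1, 0⟩
  | 6 => ⟨0, 0, 0, 1, 0, 0, 0, 0, 0⟩
  | 7 => ⟨0, 0, 0, 0, 0, 0, 0, 2, 1⟩
  | _ => ⟨0, 0, 0, 0, 1, 0, 0, 0, 0⟩

/-- a step, where `s` is the symplectic form and `d` the pairing of `g.b` and `h.a` -/
def HN.stp (h g : HN) (s d : ℕ) : HN :=
  ⟨(g.c + 2 * s * s + s * h.c + s * d) % 3, (g.a0 + s * h.a0) % 3, (g.a1 + s * h.a1) % 3,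
    (g.a2 + s * h.a2) % 3, (g.a3 + s * h.a3) % 3, (g.b0 + s * h.b0) % 3, (g.b1 + s * h.b1) % 3,
    (g.b2 + s * h.b2) % 3, (g.b3 + s * h.b3) % 3⟩

/-- pairing -/
def HN.pr (x0 x1 x2 x3 y0 y1 y2 y3 : ℕ) : ℕ := x0 * y0 + x1 * y1 + x2 * y2 + x3 * y3

/-- a step -/
def HN.step (h g : HN) : HN :=
  HN.stp h g
    ((HN.pr h.b0 h.b1 h.b2 h.b3 g.a0 g.a1 g.a2 g.a3 +
      2 * HN.pr g.b0 g.b1 g.b2 g.b3 h.a0 h.a1 h.a2 h.a3) % 3)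
    (HN.pr g.b0 g.b1 g.b2 g.b3 h.a0 h.a1 h.a2 h.a3)

theorem cast_mod (n : ℕ) : ((n % 3 : ℕ) : ZMod 3) = n := by simp

theorem HN.step_sound (h g : HN) : (HN.step h g).hs = sig h.hs g.hs := by
  have m1 : (-1 : ZMod 3) = 2 := by decide
  have hp : ∀ x0 x1 x2 x3 y0 y1 y2 y3 : ℕ,
      dt ![(x0 : ZMod 3), (x1 : ZMod 3), (x2 : ZMod 3), (x3 : ZMod 3)]
        ![(y0 : ZMod 3), (y1 : ZMod 3), (y2 : ZMod 3), (y3 : ZMod 3)] =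
      ((HN.pr x0 x1 x2 x3 y0 y1 y2 y3 : ℕ) : ZMod 3) := by
    intro x0 x1 x2 x3 y0 y1 y2 y3
    rw [dt, HN.pr, Fin.sum_univ_four]
    push_cast
    rfl
  have hs : sy h.hs g.hs = (((HN.pr h.b0 h.b1 h.b2 h.b3 g.a0 g.a1 g.a2 g.a3 +
      2 * HN.pr g.b0 g.b1 g.b2 g.b3 h.a0 h.a1 h.a2 h.a3) % 3 : ℕ) : ZMod 3) := by
    rw [sy, HN.hs, HN.hs, hp, hp, cast_mod]
    push_cast
    linear_combination (HN.pr g.b0 g.b1 g.b2 g.b3 h.a0 h.a1 h.a2 h.a3 : ZMod 3) * m1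
  have hd : dt g.hs.b h.hs.a =
      ((HN.pr g.b0 g.b1 g.b2 g.b3 h.a0 h.a1 h.a2 h.a3 : ℕ) : ZMod 3) := hp _ _ _ _ _ _ _ _
  rw [sig, hs, hd, HN.step]
  generalize (HN.pr h.b0 h.b1 h.b2 h.b3 g.a0 g.a1 g.a2 g.a3 +
      2 * HN.pr g.b0 g.b1 g.b2 g.b3 h.a0 h.a1 h.a2 h.a3) % 3 = s
  generalize HN.pr g.b0 g.b1 g.b2 g.b3 h.a0 h.a1 h.a2 h.a3 = d
  apply Hs.ext
  · simp only [HN.hs, HN.stp, cast_mod]
    push_cast
    linear_combination -(s : ZMod 3) ^ 2 * m1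
  · funext k
    fin_cases k <;> simp [HN.hs, HN.stp]
  · funext k
    fin_cases k <;> simp [HN.hs, HN.stp]

theorem hn_hs (i : Fin 9) : (hn i.val).hs = hv i := by
  have m1 : (-1 : ZMod 3) = 2 := by decide
  fin_cases i <;> apply Hs.ext <;> first | (funext k; fin_cases k <;> rfl) | rfl

/-- the check of a word -/
def hchk : List (Fin 9 × Bool) → HN → HN → Bool
  | [], g, t => g.beq t
  | p :: l, g, t =>
    hchk l (bif p.2 then (HN.step (hn p.1.val) (HN.step (hn p.1.val) g))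
      else HN.step (hn p.1.val) g) t

theorem hchk_sound {l : List (Fin 9 × Bool)} {g t : HN} (h : hchk l g t = true) :
    rl l g.hs = t.hs := by
  induction l generalizing g with
  | nil => rw [HN.beq_sound h, rl]
  | cons p l ih =>
    rw [rl, ← ih h]
    congr 1
    rcases p with ⟨i, _ | _⟩
    · simp only [sl, Bool.not_false, if_true, cond_false, HN.step_sound, hn_hs]
    · simp only [sl, Bool.not_true, Bool.false_eq_true, if_false, cond_true, HN.step_sound, hn_hs]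

/-- check for the eight generators -/
def hall (l : List (Fin 9 × Bool)) : Bool :=
  hchk l ⟨0, 1, 0, 0, 0, 0, 0, 0, 0⟩ ⟨0, 1, 0, 0, 0, 0, 0, 0, 0⟩ &&
  (hchk l ⟨0, 0, 1, 0, 0, 0, 0, 0, 0⟩ ⟨0, 0, 1, 0, 0, 0, 0, 0, 0⟩ &&
  (hchk l ⟨0, 0, 0, 1, 0, 0, 0, 0, 0⟩ ⟨0, 0, 0, 1, 0, 0, 0, 0, 0⟩ &&
  (hchk l ⟨0, 0, 0, 0, 1, 0, 0, 0, 0⟩ ⟨0, 0, 0, 0, 1, 0, 0, 0, 0⟩ &&
  (hchk l ⟨0, 0, 0, 0, 0, 1, 0, 0, 0⟩ ⟨0, 0, 0, 0, 0, 1, 0, 0, 0⟩ &&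
  (hchk l ⟨0, 0, 0, 0, 0, 0, 1, 0, 0⟩ ⟨0, 0, 0, 0, 0, 0, 1, 0, 0⟩ &&
  (hchk l ⟨0, 0, 0, 0, 0, 0, 0, 1, 0⟩ ⟨0, 0, 0, 0, 0, 0, 0, 1, 0⟩ &&
  hchk l ⟨0, 0, 0, 0, 0, 0, 0, 0, 1⟩ ⟨0, 0, 0, 0, 0, 0, 0, 0, 1⟩))))))

theorem hall_sound {l : List (Fin 9 × Bool)} (h : hall l = true) :
    (∀ k, rl l (xx k) = xx k) ∧ ∀ k, rl l (zz k) = zz k := by
  simp only [hall, Bool.and_eq_true] at h
  obtain ⟨h0, h1, h2, h3, h4, h5, h6, h7⟩ := h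
  have ex : ∀ k : Fin 4, xx k = (HN.mk 0 (if k = 0 then 1 else 0) (if k = 1 then 1 else 0)
      (if k = 2 then 1 else 0) (if k = 3 then 1 else 0) 0 0 0 0).hs := by
    intro k
    apply Hs.ext
    · simp [xx, HN.hs]
    · funext j
      fin_cases k <;> fin_cases j <;> rfl
    · funext j
      fin_cases j <;> simp [xx, HN.hs]
  have ez : ∀ k : Fin 4, zz k = (HN.mk 0 0 0 0 0 (if k = 0 then 1 else 0) (if k = 1 then 1 else 0)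
      (if k = 2 then 1 else 0) (if k = 3 then 1 else 0)).hs := by
    intro k
    apply Hs.ext
    · simp [zz, HN.hs]
    · funext j
      fin_cases j <;> simp [zz, HN.hs]
    · funext j
      fin_cases k <;> fin_cases j <;> rfl
  refine ⟨fun k => ?_, fun k => ?_⟩
  · rw [ex]
    fin_cases k
    · exact hchk_sound h0
    · exact hchk_sound h1
    · exact hchk_sound h2
    · exact hchk_sound h3
  · rw [ez]
    fin_cases k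
    · exact hchk_sound h4
    · exact hchk_sound h5
    · exact hchk_sound h6
    · exact hchk_sound h7

end Pool.Agent.H.MP_ee9c6f_al.E4.Rep
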