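import Mathlib

/-!
MP_ee9c6f_al / E4 (helper63). The Heisenberg group of order `3 ^ 9`, its representation of
dimension 81 and the elements `T h` of order three of the normaliser.
-/

set_option autoImplicit false
set_option linter.unusedSectionVars false

namespace Pool.Agent.H.MP_ee9c6f_al.E4.Rep

/-- the index set of the basis -/
abbrev I4 := Fin 4 → ZMod 3

/-- elements of the Heisenberg group -/
@[ext] structure Hs where
  c : ZMod 3
  a : I4
  b : I4

/-- the pairing -/
def dt (x y : I4) : ZMod 3 := ∑ k, x k * y k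

theorem dt_add (x y z : I4) : dt x (y + z) = dt x y + dt x z := by
  simp [dt, mul_add, Finset.sum_add_distrib]

theorem add_dt (x y z : I4) : dt (x + y) z = dt x z + dt y z := by
  simp [dt, add_mul, Finset.sum_add_distrib]

theorem dt_sub (x y z : I4) : dt x (y - z) = dt x y - dt x z := by
  simp [dt, mul_sub, Finset.sum_sub_distrib]

theorem dt_zero (x : I4) : dt x 0 = 0 := by simp [dt]

theorem zero_dt (x : I4) : dt 0 x = 0 := by simp [dt]

theorem dt_smul (s : ZMod 3) (x y : I4) : dt x (s • y) = s * dt x y := by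
  simp only [dt, Finset.mul_sum, Pi.smul_apply, smul_eq_mul]
  exact Finset.sum_congr rfl fun _ _ => by ring

theorem smul_dt (s : ZMod 3) (x y : I4) : dt (s • x) y = s * dt x y := by
  simp only [dt, Finset.mul_sum, Pi.smul_apply, smul_eq_mul]
  exact Finset.sum_congr rfl fun _ _ => by ring

namespace Hs

instance : Mul Hs := ⟨fun g h => ⟨g.c + h.c + dt g.b h.a, g.a + h.a, g.b + h.b⟩⟩

instance : One Hs := ⟨⟨0, 0, 0⟩⟩

theorem mul_def (g h : Hs) : g * h = ⟨g.c + h.c + dt g.b h.a, g.a + h.a, g.b + h.b⟩ := rfl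

theorem one_def : (1 : Hs) = ⟨0, 0, 0⟩ := rfl

end Hs

section

variable {K : Type*} [Field K] [CharZero K] (w : K)

/-- the character -/
def psi (x : ZMod 3) : K := w ^ x.val

variable {w}

theorem psi_zero : psi w 0 = 1 := by simp [psi]

theorem w3 (hw : w ^ 2 + w + 1 = 0) : w ^ 3 = 1 := by linear_combination (w - 1) * hw

theorem psi_add (hw : w ^ 2 + w + 1 = 0) (x y : ZMod 3) : psi w (x + y) = psi w x * psi w y := by
  have h3 := w3 hw
  have h : ∀ n : ℕ, w ^ (n % 3) = w ^ n := by
    intro n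
    conv_rhs => rw [← Nat.mod_add_div n 3, pow_add, pow_mul, h3, one_pow, mul_one]
  rw [psi, ZMod.val_add, h, pow_add, psi, psi]

theorem psi_ne (hw : w ^ 2 + w + 1 = 0) (x : ZMod 3) : psi w x ≠ 0 := by
  have h0 : w ≠ 0 := by
    rintro rfl
    simp at hw
  exact pow_ne_zero _ h0

variable (w)

/-- the operator of an element of the Heisenberg group -/
def op (g : Hs) : (I4 → K) →ₗ[K] (I4 → K) where
  toFun v := fun s => psi w (g.c + dt g.b (s - g.a)) * v (s - g.a)
  map_add' u v := by
    funext s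
    simp [mul_add]
  map_smul' r v := by
    funext s
    simp only [Pi.smul_apply, smul_eq_mul, RingHom.id_apply]
    ring

theorem op_apply (g : Hs) (v : I4 → K) (s : I4) :
    op w g v s = psi w (g.c + dt g.b (s - g.a)) * v (s - g.a) := rfl

variable {w}

theorem op_one : op w 1 = 1 := by
  ext v s
  simp [op_apply, Hs.one_def, zero_dt, psi_zero]

theorem op_mul (hw : w ^ 2 + w + 1 = 0) (g h : Hs) : op w (g * h) = op w g * op w h := by
  apply LinearMap.ext
  intro v
  funext s
  simp only [Module.End.mul_apply, op_apply, Hs.mul_def]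
  rw [← mul_assoc, ← psi_add hw, sub_sub]
  congr 2
  simp only [dt_sub, dt_add, add_dt]
  ring

/-- central elements -/
def Hs.z (x : ZMod 3) : Hs := ⟨x, 0, 0⟩

theorem op_z (x : ZMod 3) : op w (Hs.z x) = psi w x • 1 := by
  ext v s
  simp [op_apply, Hs.z, zero_dt]

/-- the symplectic form -/
def sy (h g : Hs) : ZMod 3 := dt h.b g.a - dt g.b h.a

theorem op_comm (hw : w ^ 2 + w + 1 = 0) (h g : Hs) :
    op w h * op w g = psi w (sy h g) • (op w g * op w h) := by
  have e : h * g = Hs.z (sy h g) * (g * h) := by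
    ext <;> simp only [Hs.mul_def, Hs.z, sy, zero_dt, zero_add]
    · ring
    · simp [add_comm]
    · simp [add_comm]
  rw [← op_mul hw, e, op_mul hw, op_z, op_mul hw, smul_mul_assoc, one_mul]

theorem cube (h : Hs) : h * h * h = 1 := by
  have h3 : ∀ x : ZMod 3, x + x + x = 0 := by decide
  ext k <;> simp only [Hs.mul_def, Hs.one_def, Pi.add_apply, Pi.zero_apply]
  · rw [add_dt]
    have := h3 h.c
    have := h3 (dt h.b h.a)
    linear_combination this + ‹h.c + h.c + h.c = 0›
  · exact h3 _
  · exact h3 _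

theorem op_cube (hw : w ^ 2 + w + 1 = 0) (h : Hs) : op w h * op w h * op w h = 1 := by
  rw [← op_mul hw, ← op_mul hw, cube, op_one]

variable (w)

/-- the sum `1 + h + h²` -/
def Nm (h : Hs) : Module.End K (I4 → K) := 1 + op w h + op w h * op w h

/-- the element of order three -/
def T (h : Hs) : Module.End K (I4 → K) := 1 + ((w - 1) / 3) • Nm w h

/-- its inverse -/
def T' (h : Hs) : Module.End K (I4 → K) := 1 + ((w ^ 2 - 1) / 3) • Nm w h

variable {w}

theorem Nm_mul (hw : w ^ 2 + w + 1 = 0) (h : Hs) : Nm w h * Nm w h = (3 : K) • Nm w h := by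
  have h3 := op_cube hw h
  have e1 : Nm w h * op w h = Nm w h := by
    rw [Nm, add_mul, add_mul, one_mul, h3]
    abel
  have e2 : Nm w h * (op w h * op w h) = Nm w h := by rw [← mul_assoc, e1, e1]
  conv_lhs =>
    rhs
    rw [Nm]
  rw [mul_add, mul_add, mul_one, e1, e2]
  module

theorem T_mul (x y : K) (hw : w ^ 2 + w + 1 = 0) (h : Hs) :
    (1 + x • Nm w h) * (1 + y • Nm w h) = 1 + (x + y + 3 * x * y) • Nm w h := by
  rw [mul_add, mul_one, add_mul, one_mul, smul_mul_smul_comm, Nm_mul hw]
  module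

theorem T_T' (hw : w ^ 2 + w + 1 = 0) (h : Hs) : T w h * T' w h = 1 := by
  rw [T, T', T_mul _ _ hw]
  have : (w - 1) / 3 + (w ^ 2 - 1) / 3 + 3 * ((w - 1) / 3) * ((w ^ 2 - 1) / 3) = 0 := by
    linear_combination ((w - 1) / 3) * hw
  rw [this]
  simp

theorem T'_T (hw : w ^ 2 + w + 1 = 0) (h : Hs) : T' w h * T w h = 1 := by
  rw [T, T', T_mul _ _ hw]
  have : (w ^ 2 - 1) / 3 + (w - 1) / 3 + 3 * ((w ^ 2 - 1) / 3) * ((w - 1) / 3) = 0 := by
    linear_combination ((w - 1) / 3) * hw
  rw [this]
  simp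

theorem T_T (hw : w ^ 2 + w + 1 = 0) (h : Hs) : T w h * T w h = T' w h := by
  rw [T, T', T_mul _ _ hw]
  have : (w - 1) / 3 + (w - 1) / 3 + 3 * ((w - 1) / 3) * ((w - 1) / 3) = (w ^ 2 - 1) / 3 := by
    ring
  rw [this]

/-- conjugation by `T h` -/
def sig (h g : Hs) : Hs :=
  ⟨g.c - sy h g ^ 2 + sy h g * h.c + sy h g * dt g.b h.a, g.a + sy h g • h.a,
    g.b + sy h g • h.b⟩

theorem T_op (hw : w ^ 2 + w + 1 = 0) {h : Hs} (hh : dt h.b h.a = 0) (g : Hs) :
    T w h * op w g = op w (sig h g) * T w h := by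
  have hs : ∀ s : ZMod 3, s = 0 ∨ s = 1 ∨ s = 2 := by decide
  have hc := op_comm hw h g
  have h3 := op_cube hw h
  have w3 := w3 hw
  have e1 : Nm w h = 1 + op w h + op w h * op w h := rfl
  have e2 : op w h * Nm w h = Nm w h := by
    rw [Nm, mul_add, mul_add, mul_one, ← mul_assoc, h3]
    abel
  have m4 : (-4 : ZMod 3) = 2 := by decide
  have m1 : (-1 : ZMod 3) = 2 := by decide
  rcases hs (sy h g) with s0 | s0 | s0
  · have e : sig h g = g := by
      ext <;> simp [sig, s0]
    rw [e]
    rw [s0, psi_zero, one_smul] at hc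
    have : Nm w h * op w g = op w g * Nm w h := by
      rw [Nm, add_mul, add_mul, mul_add, mul_add, hc, mul_assoc, hc, ← mul_assoc, hc, mul_assoc]
      simp
    rw [T, add_mul, mul_add, smul_mul_assoc, mul_smul_comm, this]
    simp
  · have e : sig h g = g * Hs.z 2 * h := by
      ext <;> simp only [sig, s0, Hs.mul_def, Hs.z, dt_zero, add_zero, one_smul]
      · linear_combination m1
    have p1 : psi w (1 : ZMod 3) = w := by simp [psi, ZMod.val_one]
    have p2 : psi w (2 : ZMod 3) = w ^ 2 := by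
      rw [show (2 : ZMod 3) = 1 + 1 by decide, psi_add hw, p1]; ring
    rw [s0, p1] at hc
    have hN : Nm w h * op w g = op w g + w • (op w g * op w h) +
        w ^ 2 • (op w g * (op w h * op w h)) := by
      rw [Nm, add_mul, add_mul, one_mul, hc, mul_assoc, hc, mul_smul_comm, ← mul_assoc, hc,
        smul_mul_assoc, smul_smul, mul_assoc, sq]
    rw [e, op_mul hw, op_mul hw, op_z, p2, mul_smul_comm, mul_one, smul_mul_assoc, smul_mul_assoc,
      mul_assoc, T, mul_add, mul_one, mul_smul_comm, e2, add_mul, one_mul, smul_mul_assoc, hN, e1,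
      mul_add, mul_smul_comm, mul_add, mul_add, mul_one]
    have a1 : 1 + (w - 1) / 3 = w ^ 2 * ((w - 1) / 3) := by
      linear_combination (-(w - 2) / 3) * hw
    have a2 : (w - 1) / 3 * w = w ^ 2 + w ^ 2 * ((w - 1) / 3) := by
      linear_combination (-w / 3) * hw
    have a3 : (w - 1) / 3 * w ^ 2 = w ^ 2 * ((w - 1) / 3) := by ring
    linear_combination (norm := module) a1 • op w g + a2 • (op w g * op w h) +
      a3 • (op w g * (op w h * op w h))
  · have e : sig h g = g * Hs.z 2 * (h * h) := by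
      ext <;> simp only [sig, s0, Hs.mul_def, Hs.z, dt_zero, add_zero, dt_add, hh, Pi.add_apply,
        Pi.smul_apply, smul_eq_mul]
      · linear_combination m4
      · ring
      · ring
    have p1 : psi w (1 : ZMod 3) = w := by simp [psi, ZMod.val_one]
    have p2 : psi w (2 : ZMod 3) = w ^ 2 := by
      rw [show (2 : ZMod 3) = 1 + 1 by decide, psi_add hw, p1]; ring
    rw [s0, p2] at hc
    have hN : Nm w h * op w g = op w g + w ^ 2 • (op w g * op w h) +
        w • (op w g * (op w h * op w h)) := by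
      rw [Nm, add_mul, add_mul, one_mul, hc, mul_assoc, hc, mul_smul_comm, ← mul_assoc, hc,
        smul_mul_assoc, smul_smul, mul_assoc]
      have : w ^ 2 * w ^ 2 = w := by linear_combination w * w3
      rw [this]
    have e3 : (op w h * op w h) * Nm w h = Nm w h := by rw [mul_assoc, e2, e2]
    rw [e, op_mul hw, op_mul hw, op_mul hw, op_z, p2, mul_smul_comm, mul_one, smul_mul_assoc,
      smul_mul_assoc, mul_assoc, T, mul_add, mul_one, mul_smul_comm, e3, add_mul, one_mul,
      smul_mul_assoc, hN, e1, mul_add, mul_smul_comm, mul_add, mul_add, mul_one]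
    have a1 : 1 + (w - 1) / 3 = w ^ 2 * ((w - 1) / 3) := by
      linear_combination (-(w - 2) / 3) * hw
    have a2 : (w - 1) / 3 * w = w ^ 2 + w ^ 2 * ((w - 1) / 3) := by
      linear_combination (-w / 3) * hw
    have a3 : (w - 1) / 3 * w ^ 2 = w ^ 2 * ((w - 1) / 3) := by ring
    linear_combination (norm := module) a1 • op w g + a3 • (op w g * op w h) +
      a2 • (op w g * (op w h * op w h))

end

end Pool.Agent.H.MP_ee9c6f_al.E4.Rep
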