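import Pool.Agent.H.MP_ee9c6f_al.E4Rep.Aff

/-!
MP_ee9c6f_al / E4 (helper63). The linear image is finite.
-/

set_option autoImplicit false
set_option linter.unusedSectionVars false

namespace Pool.Agent.H.MP_ee9c6f_al.E4.Rep

instance : Finite Hs :=
  Finite.of_injective (fun h : Hs => (h.c, h.a, h.b)) (by
    rintro ⟨_, _, _⟩ ⟨_, _, _⟩ h
    simp only [Prod.mk.injEq] at h
    obtain ⟨rfl, rfl, rfl⟩ := h
    rfl)

section

variable {K : Type*} [Field K] [CharZero K] {w : K}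

theorem Te_cube (hw : w ^ 2 + w + 1 = 0) (h : Hs) : Te hw h ^ 3 = 1 := by
  have e := Te_inv hw h
  have : Te hw h ^ 3 = Te hw h * (Te hw h * Te hw h) := by rw [pow_succ, pow_two, mul_assoc]
  rw [this, ← e, mul_inv_cancel]

theorem det_cube (hw : w ^ 2 + w + 1 = 0) (l : List (Fin 9 × Bool)) :
    (LinearEquiv.det (lw hw l)) ^ 3 = 1 := by
  induction l with
  | nil =>
    have : lw hw [] = 1 := map_one _
    rw [this, map_one, one_pow]
  | cons p l ih =>
    rw [lw_cons, map_mul, mul_pow, ih, mul_one]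
    rcases p with ⟨i, _ | _⟩
    · rw [cond_false, map_inv, inv_pow, ← map_pow, Te_cube, map_one, inv_one]
    · rw [cond_true, ← map_pow, Te_cube, map_one]

/-- the scalars of the image -/
def Sc (K : Type*) [Field K] : Set ((I4 → K) ≃ₗ[K] (I4 → K)) :=
  {x | ∃ r : K, r ^ 243 = 1 ∧ ∀ v, x v = r • v}

theorem Sc_finite : (Sc K).Finite := by
  classical
  have h1 : {r : K | r ^ 243 = 1}.Finite := by
    refine ((Polynomial.nthRoots 243 (1 : K)).toFinset.finite_toSet).subset ?_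
    intro r hr
    simp only [Finset.mem_coe, Multiset.mem_toFinset]
    exact (Polynomial.mem_nthRoots (by norm_num)).2 hr
  refine Set.Finite.of_finite_image (f := fun x => x (Pi.single 0 1) 0) (h1.subset ?_) ?_
  · rintro _ ⟨x, ⟨r, hr, hx⟩, rfl⟩
    simp only [Set.mem_ofPred_eq, hx]
    simpa using hr
  · rintro x ⟨r, _, hx⟩ y ⟨s, _, hy⟩ h
    simp only [hx, hy] at h
    have hrs : r = s := by simpa using h
    apply LinearEquiv.ext
    intro v
    rw [hx, hy, hrs]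

theorem ker_fi (hw : w ^ 2 + w + 1 = 0) {G : Type*} [Group G] (Φ : G →* ((I4 → K) ≃ᵃ[K] (I4 → K)))
    (hΦ : ∀ g, ∃ l, Φ g = wd hw l) : (AffineEquiv.linearHom.comp Φ).ker.FiniteIndex := by
  set L := AffineEquiv.linearHom.comp Φ with hL
  have hLl : ∀ g, ∃ l, L g = lw hw l := by
    intro g
    obtain ⟨l, hl⟩ := hΦ g
    exact ⟨l, by rw [hL, MonoidHom.comp_apply, hl]; rfl⟩
  obtain ⟨N, hN, hc⟩ := exists_comm L (Y := Set.range (ope hw)) (Set.finite_range _) (by
    rintro g _ ⟨h, rfl⟩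
    obtain ⟨l, hl⟩ := hLl g⁻¹
    have e := lw_conj hw l h
    rw [← hl, map_inv, inv_inv] at e
    exact ⟨_, e.symm⟩)
  refine ker_finiteIndex L hN Sc_finite fun g hg => ?_
  have hcx : ∀ h : Hs, ∀ v, L g (op w h v) = op w h (L g v) := by
    intro h v
    exact LinearEquiv.congr_fun (hc g hg (ope hw h) ⟨h, rfl⟩) v
  have hs := scalar_of_comm hw (L g).toLinearMap (fun k v => hcx _ v) (fun k v => hcx _ v)
  refine ⟨_, ?_, hs⟩
  set r := (L g).toLinearMap (Pi.single 0 1) 0 with hr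
  obtain ⟨l, hl⟩ := hLl g
  have h1 := det_cube hw l
  rw [← hl] at h1
  have h2 : (LinearEquiv.det (L g) : K) = r ^ 81 := by
    rw [LinearEquiv.coe_det]
    have h3 : ((L g : (I4 → K) ≃ₗ[K] (I4 → K)) : (I4 → K) →ₗ[K] (I4 → K)) = r • LinearMap.id := by
      apply LinearMap.ext
      intro v
      rw [LinearMap.smul_apply, LinearMap.id_apply]
      exact hs v
    rw [h3, LinearMap.det_smul, LinearMap.det_id, mul_one, Module.finrank_fintype_fun_eq_card]
    congr 1
  have h4 : ((LinearEquiv.det (L g) : K)) ^ 3 = 1 := by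
    have := congrArg Units.val h1
    simpa using this
  rw [h2, ← pow_mul] at h4
  exact h4

/-- the conclusion for a group with an action -/
theorem rep (hw : w ^ 2 + w + 1 = 0) {G : Type*} [Group G] (hG : Group.FG G)
    (Φ : G →* ((I4 → K) ≃ᵃ[K] (I4 → K))) (hΦ : ∀ g, ∃ l, Φ g = wd hw l) {z : G}
    (hz : AffineEquiv.linearHom (Φ z) = 1) (hz0 : Φ z 0 ≠ 0) :
    ∃ (M : Subgroup G) (χ : G → ℤ), M.Normal ∧ M.FiniteIndex ∧ z ∈ M ∧
      (∀ x ∈ M, ∀ y ∈ M, χ (x * y) = χ x + χ y) ∧ ∀ g : G, χ (g * z * g⁻¹) ≠ 0 :=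
  exists_char hG Φ (ker_fi hw Φ hΦ) hz hz0

end

end Pool.Agent.H.MP_ee9c6f_al.E4.Rep
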