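import Pool.Agent.H.MP_ee9c6f_al.E4.Bridge
import Pool.Agent.H.MP_ee9c6f_al.E4Rep.Lin
import Pool.Agent.H.MP_ee9c6f_al.E4Rep.Fin1
import Pool.Agent.H.MP_ee9c6f_al.E4Rep.DatA
import Pool.Agent.H.MP_ee9c6f_al.E4Rep.DatB
import Pool.Agent.H.MP_ee9c6f_al.E4Rep.DatH0
import Pool.Agent.H.MP_ee9c6f_al.E4Rep.DatH1
import Pool.Agent.H.MP_ee9c6f_al.E4Rep.DatH2
import Pool.Agent.H.MP_ee9c6f_al.E4Rep.DatH3
import Pool.Agent.H.MP_ee9c6f_al.E4Rep.DatH4
import Pool.Agent.H.MP_ee9c6f_al.E4Rep.DatH5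
import Pool.Agent.H.MP_ee9c6f_al.E4Rep.DatH6
import Pool.Agent.H.MP_ee9c6f_al.E4Rep.DatH7
import Pool.Agent.H.MP_ee9c6f_al.E4Rep.DatH8

/-!
MP_ee9c6f_al / E4 (helper63). The affine action of `Mod4` and its consequence.
-/

set_option autoImplicit false
set_option linter.unusedSectionVars false

namespace Pool.Agent.H.MP_ee9c6f_al.E4.Rep

theorem mk_app (l l' : List (Fin 9 × Bool)) :
    FreeGroup.mk (l ++ l') = FreeGroup.mk l * FreeGroup.mk l' := FreeGroup.mul_mk.symm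

theorem mk_iv (l : List (Fin 9 × Bool)) : FreeGroup.mk (iv l) = (FreeGroup.mk l)⁻¹ :=
  FreeGroup.inv_mk.symm

theorem mk_g1 (i : Fin 9) : FreeGroup.mk (g1 i) = c i := rfl

theorem mk_lb0 : FreeGroup.mk lb0 = b0 := by
  simp only [lb0, b0, mk_app, mk_iv, mk_g1]

theorem mk_lb1 : FreeGroup.mk lb1 = b1 := by
  simp only [lb1, b1, mk_app, mk_iv, mk_g1]

theorem mk_lb2 : FreeGroup.mk lb2 = b2 := by
  simp only [lb2, b2, mk_app, mk_iv, mk_g1, mk_lb1]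

theorem mk_luu : FreeGroup.mk luu = uu := by
  simp only [luu, uu, mk_app, mk_iv, mk_g1, mk_lb1]

theorem mk_lb3 : FreeGroup.mk lb3 = b3 := by
  simp only [lb3, b3, mk_app, mk_iv, mk_g1, mk_luu]

theorem mk_lw1 : FreeGroup.mk lw1 = w1 := by
  simp only [lw1, w1, mk_app, mk_g1, mk_lb0]

theorem mk_ln3 : FreeGroup.mk ln3 = n3 := by
  simp only [ln3, n3, mk_app, mk_iv, mk_g1, mk_lw1]

theorem mk_lw2 : FreeGroup.mk lw2 = w2 := by
  simp only [lw2, w2, mk_app, mk_g1, mk_ln3]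

theorem mk_ln4 : FreeGroup.mk ln4 = n4 := by
  simp only [ln4, n4, mk_app, mk_iv, mk_lw2, mk_lb0]

theorem mk_lhy : FreeGroup.mk lhy = c 8 * c 7 * c 6 * c 5 * c 4 * c 3 * c 2 * c 1 * c 1 * c 2 *
    c 3 * c 4 * c 5 * c 6 * c 7 * c 8 := by
  simp only [lhy, mk_app, mk_g1]

theorem mk_lch : FreeGroup.mk lch = (c 1 * c 2 * c 3) ^ 4 * (c 0 * b0)⁻¹ := by
  have h4 : (c 1 * c 2 * c 3) ^ 4 =
      (c 1 * c 2 * c 3) * (c 1 * c 2 * c 3) * (c 1 * c 2 * c 3) * (c 1 * c 2 * c 3) := by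
    rw [pow_succ, pow_succ, pow_succ, pow_one]
  simp only [lch, mk_app, mk_iv, mk_g1, mk_lb0, h4]

theorem mk_lla : FreeGroup.mk lla = (c 0 * b2 * b1) * (c 1 * c 3 * c 5 * b3)⁻¹ := by
  simp only [lla, mk_app, mk_iv, mk_g1, mk_lb1, mk_lb2, mk_lb3]

theorem mk_lhp : FreeGroup.mk lhp = (c 8 * c 7 * c 6 * c 5 * c 4 * c 3 * c 2 * c 1 * c 1 * c 2 *
    c 3 * c 4 * c 5 * c 6 * c 7 * c 8) * n4 * (n4 * (c 8 * c 7 * c 6 * c 5 * c 4 * c 3 * c 2 *
      c 1 * c 1 * c 2 * c 3 * c 4 * c 5 * c 6 * c 7 * c 8))⁻¹ := by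
  simp only [lhp, mk_app, mk_iv, mk_lhy, mk_ln4]

theorem mk_lz : FreeGroup.mk lz = (c 0 * b1⁻¹) ^ 3 := by
  have h3 : (c 0 * b1⁻¹) ^ 3 = (c 0 * b1⁻¹) * (c 0 * b1⁻¹) * (c 0 * b1⁻¹) := by
    rw [pow_succ, pow_succ, pow_one]
  simp only [lz, mk_app, mk_iv, mk_g1, mk_lb1, h3]

theorem mk_lbc_meet {i j : Fin 9} (h : Meet i j) :
    FreeGroup.mk (lbc i j) = c i * c j * c i * (c j * c i * c j)⁻¹ := by
  have hm : meetb i.val j.val = true := by
    revert h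
    revert i j
    decide
  simp only [lbc, hm, cond_true, mk_app, mk_iv, mk_g1]

theorem mk_lbc_disj {i j : Fin 9} (h : ¬ Meet i j) :
    FreeGroup.mk (lbc i j) = c i * c j * (c j * c i)⁻¹ := by
  have hm : meetb i.val j.val = false := by
    revert h
    revert i j
    decide
  simp only [lbc, hm, cond_false, mk_app, mk_iv, mk_g1]

section

variable {K : Type*} [Field K] [CharZero K] {w : K}

theorem lift_mk_wd (hw : w ^ 2 + w + 1 = 0) (l : List (Fin 9 × Bool)) :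
    FreeGroup.lift (A hw) (FreeGroup.mk l) = wd hw l := by
  rw [FreeGroup.lift_mk]
  rfl

theorem wd_lbc (hw : w ^ 2 + w + 1 = 0) {i j : Fin 9} (h : i < j) : wd hw (lbc i j) = 1 := by
  have h1 := good_bc i j
  have h2 : Nat.blt i.val j.val = true := by
    rw [Nat.blt_eq]
    exact h
  rw [bcok, h2, cond_true] at h1
  exact good_sound hw h1

theorem wd_inv_append (hw : w ^ 2 + w + 1 = 0) (l l' : List (Fin 9 × Bool)) (v : I4 → K) :
    (wd hw (l ++ l'))⁻¹ v = (wd hw l')⁻¹ ((wd hw l)⁻¹ v) := by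
  rw [wd_append, mul_inv_rev]
  rfl

theorem N0_0_eq : N0_0 = Z0 := by decide +kernel
theorem N0_9_eq : N0_9 = Z0 := by decide +kernel
theorem N1_0_eq : N1_0 = Z1 := by decide +kernel
theorem N1_9_eq : N1_9 = Z1 := by decide +kernel

theorem wd_lhp (hw : w ^ 2 + w + 1 = 0) : wd hw lhp = 1 := by
  refine wd_one_of hw hyp_hall ?_ ?_
  · rw [lhp_eq]
    simp only [wd_inv_append]
    rw [← N0_0_eq, piece hw hyp0_0, piece hw hyp0_1, piece hw hyp0_2, piece hw hyp0_3,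
      piece hw hyp0_4, piece hw hyp0_5, piece hw hyp0_6, piece hw hyp0_7, piece hw hyp0_8,
      N0_9_eq, N0_0_eq]
  · rw [lhp_eq]
    simp only [wd_inv_append]
    rw [← N1_0_eq, piece hw hyp1_0, piece hw hyp1_1, piece hw hyp1_2, piece hw hyp1_3,
      piece hw hyp1_4, piece hw hyp1_5, piece hw hyp1_6, piece hw hyp1_7, piece hw hyp1_8,
      N1_9_eq, N1_0_eq]

theorem rels_hold (hw : w ^ 2 + w + 1 = 0) : ∀ r ∈ modRels, FreeGroup.lift (A hw) r = 1 := by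
  rintro r ((⟨i, j, hij, hm, rfl⟩ | ⟨i, j, hij, hm, rfl⟩) | hr)
  · rw [← mk_lbc_meet hm, lift_mk_wd, wd_lbc hw hij]
  · rw [← mk_lbc_disj hm, lift_mk_wd, wd_lbc hw hij]
  · rcases hr with rfl | rfl | rfl
    · rw [← mk_lch, lift_mk_wd, good_sound hw good_chain]
    · rw [← mk_lla, lift_mk_wd, good_sound hw good_lantern]
    · rw [← mk_lhp, lift_mk_wd, wd_lhp hw]

theorem z_checks (hw : w ^ 2 + w + 1 = 0) :
    lw hw lz = 1 ∧ wd hw lz 0 ≠ 0 := by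
  have h := good_z
  simp only [Bool.and_eq_true] at h
  obtain ⟨h1, h2, h3, h4, h5⟩ := h
  have e0 := piece hw (T := TZ0) (l := lz) (n := Z0) (n' := ZE0) (by rw [h2, h4]; rfl)
  have e1 := piece hw (T := TZ1) (l := lz) (n := Z1) (n' := ZE1) (by rw [h3, h5]; rfl)
  rw [vec_Z0 hw] at e0
  rw [vec_Z1 hw] at e1
  refine ⟨lw_one_of hw h1 ?_, ?_⟩
  · rw [e0, e1]
    have key : ∀ d0 d1 d2 d3 : ZMod 3, (fA ZE1 (idx ![d0, d1, d2, d3]) : ℤ) =
        3 * (chi3 d0 * chi3 (d3 - d2)) + fA ZE0 (idx ![d0, d1, d2, d3]) ∧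
        fB ZE1 (idx ![d0, d1, d2, d3]) = fB ZE0 (idx ![d0, d1, d2, d3]) := by
      decide +kernel
    funext t
    have hk := key (t 0) (t 1) (t 2) (t 3)
    rw [eta4] at hk
    have hk1 := congrArg (Int.cast : ℤ → K) hk.1
    push_cast at hk1
    rw [Pi.add_apply, vec, vec, vl, vl, hk.2, tr, if_pos rfl]
    push_cast
    linear_combination hk1
  · intro h0
    have h6 : (wd hw lz)⁻¹ 0 = 0 := by
      conv_lhs => rw [← h0]
      exact (wd hw lz).symm_apply_apply 0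
    rw [h6] at e0
    have h7 := congrFun e0 (![1, 2, 0, 1] : I4)
    have a1 : fA ZE0 (idx (![1, 2, 0, 1] : I4)) = 91 := by decide +kernel
    have a2 : fB ZE0 (idx (![1, 2, 0, 1] : I4)) = 91 := by decide +kernel
    rw [vec, vl, a1, a2, Pi.zero_apply] at h7
    push_cast at h7
    have hw0 : w ≠ 0 := by
      rintro rfl
      simp at hw
    have h8 : (27 : K) * w ^ 2 = 0 := by linear_combination (91 : K) * hw + h7
    rcases mul_eq_zero.1 h8 with h9 | h9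
    · norm_num at h9
    · exact pow_ne_zero 2 hw0 h9

end

theorem fg_mod4 : Group.FG Mod4 := by
  rw [Group.fg_iff]
  exact ⟨Set.range gen, closure_gen, Set.finite_range _⟩

/-- The affine action of `Mod4` gives a normal subgroup `M` of finite index and a character of `M`
which does not vanish on the conjugates of `z4`. -/
theorem main : ∃ (M : Subgroup Mod4) (χ : Mod4 → ℤ), M.Normal ∧ M.FiniteIndex ∧ z4 ∈ M ∧
    (∀ x ∈ M, ∀ y ∈ M, χ (x * y) = χ x + χ y) ∧ ∀ g : Mod4, χ (g * z4 * g⁻¹) ≠ 0 := by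
  obtain ⟨w, hw⟩ : ∃ w : ℂ, w ^ 2 + w + 1 = 0 := by
    obtain ⟨ζ, hζ⟩ : ∃ ζ : ℂ, IsPrimitiveRoot ζ 3 :=
      ⟨_, Complex.isPrimitiveRoot_exp 3 (by norm_num)⟩
    have h := hζ.geom_sum_eq_zero (by norm_num)
    rw [Finset.sum_range_succ, Finset.sum_range_succ, Finset.sum_range_one, pow_zero,
      pow_one] at h
    exact ⟨ζ, by rw [← h]; ring⟩
  let Φ : Mod4 →* ((I4 → ℂ) ≃ᵃ[ℂ] (I4 → ℂ)) := PresentedGroup.toGroup (rels_hold hw)
  have hΦ : ∀ x : FreeGroup (Fin 9), Φ (PresentedGroup.mk modRels x) = FreeGroup.lift (A hw) x :=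
    fun x => rfl
  have hz : z4 = PresentedGroup.mk modRels (FreeGroup.mk lz) := by
    rw [mk_lz]
    rfl
  have hzc := z_checks hw
  refine rep hw fg_mod4 Φ (fun g => ?_) (z := z4) ?_ ?_
  · obtain ⟨x, rfl⟩ := PresentedGroup.mk_surjective modRels g
    obtain ⟨l, rfl⟩ := Quot.exists_rep x
    exact ⟨l, lift_mk_wd hw l⟩
  · rw [hz, hΦ, lift_mk_wd]
    exact hzc.1
  · rw [hz, hΦ, lift_mk_wd]
    exact hzc.2

end Pool.Agent.H.MP_ee9c6f_al.E4.Rep
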