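import Pool.Agent.H.MP_ee9c6f_al.E4Rep.Chk

/-!
MP_ee9c6f_al / E4 (helper63). Soundness of the integer arithmetic.
-/

set_option autoImplicit false
set_option linter.unusedSectionVars false

namespace Pool.Agent.H.MP_ee9c6f_al.E4.Rep

/-- the number of an index -/
def idx (t : I4) : ℕ := 27 * (t 0).val + 9 * (t 1).val + 3 * (t 2).val + (t 3).val

/-- entry of the table of a generator -/
def ent (i s : ℕ) : ℕ := Nat.land (Nat.shiftRight (tab i) (Nat.mul 32 s)) 4294967295

/-- the entries of the tables are right at `t` -/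
def TabOk (i : Fin 9) (t : I4) : Prop :=
  Nat.land (ent i (idx t)) 127 = idx (t - (hv i).a) ∧
  Nat.land (Nat.shiftRight (ent i (idx t)) 7) 3 = ((hv i).c + dt (hv i).b (t - (hv i).a)).val ∧
  Nat.land (Nat.shiftRight (ent i (idx t)) 9) 127 = idx (t - (hv i).a - (hv i).a) ∧
  Nat.land (Nat.shiftRight (ent i (idx t)) 16) 3 = (((hv i).c + dt (hv i).b (t - (hv i).a)) +
    ((hv i).c + dt (hv i).b (t - (hv i).a - (hv i).a))).val ∧
  Nat.land (Nat.shiftRight (ent i (idx t)) 18) 3 =
    (if i = 4 then t 0 * (t 3 - t 2) else 0 : ZMod 3).val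

instance (i : Fin 9) (t : I4) : Decidable (TabOk i t) := by
  unfold TabOk
  infer_instance

theorem tab_ok' : ∀ i : Fin 9, ∀ d0 d1 d2 d3 : ZMod 3, TabOk i ![d0, d1, d2, d3] := by
  decide +kernel

theorem tab_ok (i : Fin 9) (t : I4) : TabOk i t := by
  have h := tab_ok' i (t 0) (t 1) (t 2) (t 3)
  have e : ![t 0, t 1, t 2, t 3] = t := by
    funext k
    fin_cases k <;> rfl
  rwa [e] at h

theorem al3_sound {f : ℕ → Bool} {s : ℕ} (h : al3 f s = true) (d : ℕ) (hd : d < 3) :
    f (3 * s + d) = true := by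
  simp only [al3, Bool.and_eq_true] at h
  obtain ⟨h0, h1, h2⟩ := h
  interval_cases d
  · exact h0
  · exact h1
  · exact h2

section

variable {K : Type*} [Field K] [CharZero K] {w : K}

theorem sel_rot (hw : w ^ 2 + w + 1 = 0) {p : ℕ} (hp : p < 3) (a b c : ℕ) :
    w ^ p * ((a : K) + b * w + c * w ^ 2) =
      (sel p a c b : K) + (sel p b a c : K) * w + (sel p c b a : K) * w ^ 2 := by
  have h3 := w3 hw
  interval_cases p
  · simp [sel]
  · simp only [sel]
    linear_combination (c : K) * h3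
  · simp only [sel]
    linear_combination ((b : K) + c * w) * h3

/-- the value of a code -/
def tv (K : Type*) [Field K] (x : ℕ) : K := if x = 0 then 0 else if x = 1 then 3 else -3

theorem chkF_sound (hw : w ^ 2 + w + 1 = 0) {A B A' B' A1 B1 A2 B2 p1 p2 tc : ℕ}
    (h : chkF A B A' B' A1 B1 A2 B2 p1 p2 tc = true) (h1 : p1 < 3) (h2 : p2 < 3) (h3 : tc < 3) :
    ((A' : K) + B' * w + (64 : ℕ) * w ^ 2) = ((A : K) + B * w + (64 : ℕ) * w ^ 2) +
      (w - 1) / 3 * (((A : K) + B * w + (64 : ℕ) * w ^ 2) +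
        w ^ p1 * ((A1 : K) + B1 * w + (64 : ℕ) * w ^ 2) +
        w ^ p2 * ((A2 : K) + B2 * w + (64 : ℕ) * w ^ 2)) + tv K tc := by
  rw [sel_rot hw h1, sel_rot hw h2]
  simp only [chkF, chkG, Bool.and_eq_true, Nat.add_eq, Nat.mul_eq] at h
  obtain ⟨e1, e2⟩ := h
  have e1' := congrArg (Nat.cast : ℕ → K) (Nat.eq_of_beq_eq_true e1)
  have e2' := congrArg (Nat.cast : ℕ → K) (Nat.eq_of_beq_eq_true e2)
  clear e1 e2
  push_cast at e1' e2'
  generalize (sel p1 A1 64 B1 : K) = a1 at *
  generalize (sel p1 B1 A1 64 : K) = b1 at *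
  generalize (sel p1 64 B1 A1 : K) = c1 at *
  generalize (sel p2 A2 64 B2 : K) = a2 at *
  generalize (sel p2 B2 A2 64 : K) = b2 at *
  generalize (sel p2 64 B2 A2 : K) = c2 at *
  push_cast
  interval_cases tc
  · simp only [sel, Nat.cast_zero] at e1' e2'
    simp only [tv, if_true]
    linear_combination (1 / 3) * e1' + (w / 3) * e2' -
      (1 / 3) * ((B + (b1 + b2)) + (w - 2) * (64 + (c1 + c2))) * hw
  · simp only [sel, Nat.cast_zero, Nat.cast_ofNat] at e1' e2'
    have : tv K 1 = 3 := by simp [tv]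
    rw [this]
    linear_combination (1 / 3) * e1' + (w / 3) * e2' -
      (1 / 3) * ((B + (b1 + b2)) + (w - 2) * (64 + (c1 + c2))) * hw
  · simp only [sel, Nat.cast_zero, Nat.cast_ofNat] at e1' e2'
    have : tv K 2 = -3 := by simp [tv]
    rw [this]
    linear_combination (1 / 3) * e1' + (w / 3) * e2' -
      (1 / 3) * ((B + (b1 + b2)) + (w - 2) * (64 + (c1 + c2))) * hw

/-- entry `j` of the vector `n` -/
def vl (w : K) (n j : ℕ) : K := (fA n j : K) + (fB n j : K) * w + (64 : ℕ) * w ^ 2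

/-- the vector `n` -/
def vec (w : K) (n : ℕ) : I4 → K := fun t => vl w n (idx t)

theorem chkE_sound (hw : w ^ 2 + w + 1 = 0) {i : Fin 9} {n n' : ℕ} {t : I4}
    (h : chkE n n' (idx t) (ent i (idx t)) = true) :
    vec w n' t = vec w n t + (w - 1) / 3 * (vec w n t +
      psi w ((hv i).c + dt (hv i).b (t - (hv i).a)) * vec w n (t - (hv i).a) +
      psi w (((hv i).c + dt (hv i).b (t - (hv i).a)) +
        ((hv i).c + dt (hv i).b (t - (hv i).a - (hv i).a))) * vec w n (t - (hv i).a - (hv i).a)) +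
      tr K i t := by
  obtain ⟨h1, h2, h3, h4, h5⟩ := tab_ok i t
  rw [chkE, h1, h2, h3, h4, h5] at h
  have := chkF_sound hw h (ZMod.val_lt _) (ZMod.val_lt _) (ZMod.val_lt _)
  rw [vec, vl, this]
  have htr : tv K (if i = 4 then t 0 * (t 3 - t 2) else 0 : ZMod 3).val = tr K i t := by
    have key : ∀ x y : ZMod 3, (x * y).val = 0 ∧ chi3 x * chi3 y = 0 ∨
        (x * y).val = 1 ∧ chi3 x * chi3 y = 1 ∨ (x * y).val = 2 ∧ chi3 x * chi3 y = -1 := by
      decide
    by_cases hi : i = 4
    · simp only [tr, hi, if_true]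
      rcases key (t 0) (t 3 - t 2) with ⟨a, b⟩ | ⟨a, b⟩ | ⟨a, b⟩
      · rw [a, b]; simp [tv]
      · rw [a, b]; simp [tv]
      · rw [a, b]; simp [tv]
    · simp [tr, hi, tv]
  rw [htr]
  rfl

theorem stepchk_sound (hw : w ^ 2 + w + 1 = 0) {i : Fin 9} {n n' : ℕ}
    (h : stepchk i.val n n' = true) : A hw i (vec w n) = vec w n' := by
  funext t
  have hlt : ∀ x : ZMod 3, x.val < 3 := fun x => ZMod.val_lt x
  have h1 := al3_sound (al3_sound (al3_sound (al3_sound h _ (hlt (t 0))) _ (hlt (t 1))) _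
    (hlt (t 2))) _ (hlt (t 3))
  have e : 3 * (3 * (3 * (3 * 0 + (t 0).val) + (t 1).val) + (t 2).val) + (t 3).val = idx t := by
    rw [idx]; ring
  rw [e] at h1
  have h2 := chkE_sound hw (i := i) (t := t) h1
  rw [h2, A_apply, Pi.add_apply]
  congr 1
  rw [T, Nm]
  simp only [LinearMap.add_apply, LinearMap.smul_apply, Module.End.one_apply,
    Module.End.mul_apply, Pi.add_apply, Pi.smul_apply, smul_eq_mul, op_apply]
  rw [psi_add hw ((hv i).c + dt (hv i).b (t - (hv i).a))
    ((hv i).c + dt (hv i).b (t - (hv i).a - (hv i).a)), mul_assoc (psi w _) (psi w _)]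

theorem vchk_sound (hw : w ^ 2 + w + 1 = 0) {T : ℕ} {l : List (Fin 9 × Bool)} {k : ℕ}
    (h : vchk T l k = true) :
    (wd hw l)⁻¹ (vec w (slice T k)) = vec w (slice T (k + l.length)) := by
  induction l generalizing k with
  | nil => rfl
  | cons p l ih =>
    simp only [vchk, Bool.and_eq_true] at h
    obtain ⟨h1, h2⟩ := h
    have h3 := ih h2
    have e : k + (p :: l).length = Nat.add k 1 + l.length := by
      simp only [List.length_cons, Nat.add_eq]; omega
    rw [e, ← h3, wd_cons, mul_inv_rev]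
    change (wd hw l)⁻¹ ((cond p.2 (A hw p.1) (A hw p.1)⁻¹)⁻¹ (vec w (slice T k))) = _
    congr 1
    rcases p with ⟨i, _ | _⟩
    · simp only [cond_false, inv_inv] at h1 ⊢
      exact stepchk_sound hw h1
    · simp only [cond_true] at h1 ⊢
      rw [← stepchk_sound hw h1]
      exact (A hw i).symm_apply_apply _

theorem wd_append (hw : w ^ 2 + w + 1 = 0) (l l' : List (Fin 9 × Bool)) :
    wd hw (l ++ l') = wd hw l * wd hw l' := by
  simp [wd]

/-- the check in segments -/
theorem seg_sound (hw : w ^ 2 + w + 1 = 0) {T : ℕ} {l : List (Fin 9 × Bool)} (m s : ℕ)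
    (h : ∀ j < m, vchk T ((l.drop (s * j)).take s) (s * j) = true) (hm : l.length ≤ s * m) :
    (wd hw l)⁻¹ (vec w (slice T 0)) = vec w (slice T l.length) := by
  have key : ∀ j ≤ m, (wd hw (l.take (s * j)))⁻¹ (vec w (slice T 0)) =
      vec w (slice T (l.take (s * j)).length) := by
    intro j hj
    induction j with
    | zero => simp [wd]
    | succ j ih =>
      have ih := ih (by omega)
      have e : l.take (s * (j + 1)) = l.take (s * j) ++ (l.drop (s * j)).take s := by
        rw [Nat.mul_succ, List.take_add]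
      rw [e, wd_append, mul_inv_rev, List.length_append]
      change (wd hw ((l.drop (s * j)).take s))⁻¹ ((wd hw (l.take (s * j)))⁻¹ _) = _
      rw [ih]
      rcases Nat.lt_or_ge l.length (s * j) with hl | hl
      · have e2 : (l.drop (s * j)).take s = [] := by
          rw [List.drop_eq_nil_of_le hl.le, List.take_nil]
        rw [e2]
        simp [wd]
      · have e3 : (l.take (s * j)).length = s * j := by
          rw [List.length_take]; omega
        rw [e3]
        exact vchk_sound hw (h j (by omega))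
  have h1 := key m le_rfl
  rwa [List.take_of_length_le hm] at h1

end

end Pool.Agent.H.MP_ee9c6f_al.E4.Rep
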