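import Pool.Agent.H.MP_ee9c6f_al.E4Rep.HChk

/-!
MP_ee9c6f_al / E4 (helper63). The words of the presentation as lists, and the checks.
-/

set_option autoImplicit false

namespace Pool.Agent.H.MP_ee9c6f_al.E4.Rep

/-- a letter -/
def g1 (i : Fin 9) : List (Fin 9 × Bool) := [(i, true)]

/-- inverse word -/
def iv (l : List (Fin 9 × Bool)) : List (Fin 9 × Bool) := FreeGroup.invRev l

def lb0 : List (Fin 9 × Bool) :=
  (g1 4 ++ g1 3 ++ g1 2 ++ g1 1 ++ g1 1 ++ g1 2 ++ g1 3 ++ g1 4) ++ g1 0 ++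
    iv (g1 4 ++ g1 3 ++ g1 2 ++ g1 1 ++ g1 1 ++ g1 2 ++ g1 3 ++ g1 4)

def lb1 : List (Fin 9 × Bool) :=
  iv (g1 4 ++ g1 5 ++ g1 3 ++ g1 4) ++ g1 0 ++ (g1 4 ++ g1 5 ++ g1 3 ++ g1 4)

def lb2 : List (Fin 9 × Bool) :=
  iv (g1 2 ++ g1 3 ++ g1 1 ++ g1 2) ++ lb1 ++ (g1 2 ++ g1 3 ++ g1 1 ++ g1 2)

def luu : List (Fin 9 × Bool) := iv (g1 6 ++ g1 5) ++ lb1 ++ (g1 6 ++ g1 5)

def lb3 : List (Fin 9 × Bool) :=
  (g1 6 ++ g1 5 ++ g1 4 ++ g1 3 ++ g1 2 ++ luu ++ iv (g1 1) ++ iv (g1 2) ++ iv (g1 3) ++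
    iv (g1 4)) ++ g1 0 ++
    iv (g1 6 ++ g1 5 ++ g1 4 ++ g1 3 ++ g1 2 ++ luu ++ iv (g1 1) ++ iv (g1 2) ++ iv (g1 3) ++
      iv (g1 4))

def lw1 : List (Fin 9 × Bool) :=
  (g1 6 ++ g1 5 ++ g1 4 ++ lb0) ++ (g1 3 ++ g1 2 ++ g1 4 ++ g1 3) ++
    (g1 5 ++ g1 4 ++ g1 6 ++ g1 5) ++ (lb0 ++ g1 4 ++ g1 3 ++ g1 2)

def ln3 : List (Fin 9 × Bool) := lw1 ++ g1 1 ++ iv lw1

def lw2 : List (Fin 9 × Bool) :=
  (g1 8 ++ g1 7 ++ g1 6 ++ ln3) ++ (g1 5 ++ g1 4 ++ g1 6 ++ g1 5) ++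
    (g1 7 ++ g1 6 ++ g1 8 ++ g1 7) ++ (ln3 ++ g1 6 ++ g1 5 ++ g1 4)

def ln4 : List (Fin 9 × Bool) := lw2 ++ lb0 ++ iv lw2

def lhy : List (Fin 9 × Bool) :=
  g1 8 ++ g1 7 ++ g1 6 ++ g1 5 ++ g1 4 ++ g1 3 ++ g1 2 ++ g1 1 ++ g1 1 ++ g1 2 ++ g1 3 ++ g1 4 ++
    g1 5 ++ g1 6 ++ g1 7 ++ g1 8

/-- the 3-chain relator -/
def lch : List (Fin 9 × Bool) :=
  ((g1 1 ++ g1 2 ++ g1 3) ++ (g1 1 ++ g1 2 ++ g1 3) ++ (g1 1 ++ g1 2 ++ g1 3) ++
    (g1 1 ++ g1 2 ++ g1 3)) ++ iv (g1 0 ++ lb0)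

/-- the lantern relator -/
def lla : List (Fin 9 × Bool) :=
  (g1 0 ++ lb2 ++ lb1) ++ iv (g1 1 ++ g1 3 ++ g1 5 ++ lb3)

/-- the hyperelliptic relator -/
def lhp : List (Fin 9 × Bool) := lhy ++ ln4 ++ iv (ln4 ++ lhy)

/-- the element `z` -/
def lz : List (Fin 9 × Bool) :=
  (g1 0 ++ iv lb1) ++ (g1 0 ++ iv lb1) ++ (g1 0 ++ iv lb1)

/-- the vector zero -/
def Z0 : ℕ := 0x404040404040404040404040404040404040404040404040404040404040404040404040404040404040404040404040404040404040404040404040404040404040404040404040404040404040404040404040404040404040404040404040404040404040404040404040404040404040404040404040404040404040404040404040404040404040404040404040404040404040404040404040404040404040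

/-- the vector of the translation -/
def Z1 : ℕ := 0x40404043403d403d404040434043403d404040404043403d403d404040434043403d404040404043403d403d404040434043403d40404040403d404340434040403d403d404340404040403d404340434040403d403d404340404040403d404340434040403d403d40434040404040404040404040404040404040404040404040404040404040404040404040404040404040404040404040404040404040404040

/-- begin and end of a table -/
def ends (T : ℕ) (l : List (Fin 9 × Bool)) (n n' : ℕ) : Bool :=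
  Nat.beq (slice T 0) n && Nat.beq (slice T l.length) n'

/-- check of a relator -/
def good (l : List (Fin 9 × Bool)) (T0 T1 : ℕ) : Bool :=
  hall l && (vchk T0 l 0 && (vchk T1 l 0 && (ends T0 l Z0 Z0 && ends T1 l Z1 Z1)))

end Pool.Agent.H.MP_ee9c6f_al.E4.Rep
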